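import Mathlib

/-!
Laplace transform of `t^(a-1)` for complex `r`, `Re r > 0`:
`∫_0^∞ t^(a-1) exp(-r t) dt = (1/r)^a Gamma a` (Mathlib only has real `r > 0`).
-/

open Complex MeasureTheory Set Filter Topology

namespace Pool.Agent.Helper94.BD

noncomputable def lF (a r : ℂ) (t : ℝ) : ℂ := (t : ℂ) ^ (a - 1) * exp (-(r * t))

noncomputable def lF' (a r : ℂ) (t : ℝ) : ℂ := -(t : ℂ) * ((t : ℂ) ^ (a - 1) * exp (-(r * t)))

theorem lF_meas (a r : ℂ) : AEStronglyMeasurable (lF a r) (volume.restrict (Ioi 0)) := by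
  refine ContinuousOn.aestronglyMeasurable (fun t ht => ?_) measurableSet_Ioi
  have ht' : (t : ℂ) ∈ slitPlane := by
    rw [Complex.mem_slitPlane_iff]; left; simpa using ht
  unfold lF
  have h1 : ContinuousAt (fun t : ℝ => (t : ℂ) ^ (a - 1)) t :=
    (continuousAt_cpow_const ht').comp (f := fun t : ℝ => (t : ℂ)) (by fun_prop)
  exact (h1.mul (by fun_prop)).continuousWithinAt

theorem lF_norm (a r : ℂ) {t : ℝ} (ht : 0 < t) : ‖lF a r t‖ = t ^ (a.re - 1) * Real.exp (-(r.re * t)) := by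
  unfold lF
  rw [norm_mul, Complex.norm_cpow_eq_rpow_re_of_pos ht, Complex.norm_exp]
  simp

theorem lF'_eq (a r : ℂ) (t : ℝ) : lF' a r t = -(t : ℂ) * lF a r t := rfl

theorem int_rpow {s b : ℝ} (hs : -1 < s) (hb : 0 < b) :
    IntegrableOn (fun t : ℝ => t ^ s * Real.exp (-(b * t))) (Ioi 0) := by
  have := integrableOn_rpow_mul_exp_neg_mul_rpow (p := 1) (s := s) (b := b) hs one_pos hb
  refine this.congr_fun (fun t _ => ?_) measurableSet_Ioi
  simp

theorem lF_int {a r : ℂ} (ha : 0 < a.re) (hr : 0 < r.re) : IntegrableOn (lF a r) (Ioi 0) := by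
  refine (int_rpow (s := a.re - 1) (by linarith) hr).mono' (lF_meas a r) ?_
  filter_upwards [ae_restrict_mem measurableSet_Ioi] with t ht
  exact (lF_norm a r ht).le

theorem lF_deriv {a r : ℂ} (ha : 0 < a.re) (hr : 0 < r.re) :
    HasDerivAt (fun z => ∫ t in Ioi (0 : ℝ), lF a z t) (∫ t in Ioi (0 : ℝ), lF' a r t) r := by
  have hopen : {z : ℂ | r.re / 2 < z.re} ∈ 𝓝 r :=
    (isOpen_lt continuous_const Complex.continuous_re).mem_nhds (by simpa using half_lt_self hr)
  refine (hasDerivAt_integral_of_dominated_loc_of_deriv_le (F := lF a) (F' := lF' a)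
    (bound := fun t => t ^ a.re * Real.exp (-(r.re / 2 * t))) hopen
    (Eventually.of_forall fun z => lF_meas a z) (lF_int ha hr)
    ?_ ?_ (int_rpow (by linarith) (by linarith)) ?_).2
  · exact (Continuous.aestronglyMeasurable (by fun_prop : Continuous fun t : ℝ => -(t : ℂ))).mul (lF_meas a r)
  · filter_upwards [ae_restrict_mem measurableSet_Ioi] with t ht z hz
    have ht0 : (0 : ℝ) < t := ht
    have hz' : r.re / 2 < z.re := hz
    rw [lF'_eq, norm_mul, lF_norm a z ht0, norm_neg, Complex.norm_real, Real.norm_eq_abs, abs_of_pos ht0,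
      ← mul_assoc]
    have e1 : t * t ^ (a.re - 1) = t ^ a.re := by
      rw [mul_comm, ← Real.rpow_add_one ht0.ne']
      congr 1; ring
    rw [e1]
    gcongr
  · refine Eventually.of_forall fun t z _ => ?_
    unfold lF lF'
    have h1 : HasDerivAt (fun z : ℂ => -(z * (t : ℂ))) (-(t : ℂ)) z := by
      have := ((hasDerivAt_id' z).mul_const (t : ℂ)).fun_neg
      rwa [one_mul] at this
    have h2 := (h1.cexp).const_mul ((t : ℂ) ^ (a - 1))
    exact h2.congr_deriv (by ring)

/-- Laplace transform of a complex power. -/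
theorem laplace_cpow {a r : ℂ} (ha : 0 < a.re) (hr : 0 < r.re) :
    ∫ t : ℝ in Ioi 0, (t : ℂ) ^ (a - 1) * exp (-(r * t)) = (1 / r) ^ a * Gamma a := by
  set U : Set ℂ := {z : ℂ | 0 < z.re} with hU
  have hUo : IsOpen U := isOpen_lt continuous_const Complex.continuous_re
  have hUc : Convex ℝ U := convex_halfSpace_re_gt 0
  have hf : AnalyticOnNhd ℂ (fun z => ∫ t : ℝ in Ioi 0, lF a z t) U := by
    refine DifferentiableOn.analyticOnNhd (fun z hz => ?_) hUo
    exact (lF_deriv ha hz).differentiableAt.differentiableWithinAt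
  have hg : AnalyticOnNhd ℂ (fun z => (1 / z) ^ a * Gamma a) U := by
    refine DifferentiableOn.analyticOnNhd (fun z hz => ?_) hUo
    refine DifferentiableAt.differentiableWithinAt ?_
    have hz0 : z ≠ 0 := by rintro rfl; simp [hU] at hz
    have hz' : (0 : ℝ) < z.re := hz
    have h1 : (1 / z) ∈ slitPlane := by
      rw [Complex.mem_slitPlane_iff]; left
      rw [one_div, Complex.inv_re]
      exact div_pos hz' (Complex.normSq_pos.mpr hz0)
    exact (((differentiableAt_const _).div differentiableAt_id hz0).cpow_const h1).mul_const _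
  have h0 : (1 : ℂ) ∈ U := by simp [hU]
  have hfr : ∃ᶠ z in 𝓝[≠] (1 : ℂ), (fun z => ∫ t : ℝ in Ioi 0, lF a z t) z = (fun z => (1 / z) ^ a * Gamma a) z := by
    have ht : Tendsto (fun x : ℝ => (x : ℂ)) (𝓝[≠] (1 : ℝ)) (𝓝[≠] (1 : ℂ)) := by
      refine tendsto_nhdsWithin_iff.2 ⟨?_, ?_⟩
      · have : Tendsto (fun x : ℝ => (x : ℂ)) (𝓝 (1 : ℝ)) (𝓝 ((1 : ℝ) : ℂ)) :=
          (by fun_prop : Continuous (fun x : ℝ => (x : ℂ))).tendsto 1
        simpa using this.mono_left nhdsWithin_le_nhds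
      · filter_upwards [self_mem_nhdsWithin] with x hx
        simpa using hx
    refine ht.frequently (Eventually.frequently ?_)
    have hpos : ∀ᶠ x : ℝ in 𝓝[≠] (1 : ℝ), 0 < x :=
      nhdsWithin_le_nhds (Ioi_mem_nhds one_pos)
    filter_upwards [hpos] with x hx
    exact integral_cpow_mul_exp_neg_mul_Ioi ha hx
  exact hf.eqOn_of_preconnected_of_frequently_eq hg hUc.isPreconnected h0 hfr hr

theorem laplace_cpow_integrable {a r : ℂ} (ha : 0 < a.re) (hr : 0 < r.re) :
    IntegrableOn (fun t : ℝ => (t : ℂ) ^ (a - 1) * exp (-(r * t))) (Ioi 0) := lF_int ha hr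

end Pool.Agent.Helper94.BD
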